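import Pool.Agent.Q142.Two.Top

set_option autoImplicit false

open scoped ContDiff Manifold Topology
open Pool.Agent.Q142.Coh Pool.Agent.Q142.Two

namespace Pool.Agent.Results.MP_9877a5_gt.SevenSphere

/-- There is a closed connected smooth `7`-manifold `M` with a smooth effective action of a compact
connected Lie group `G` of cohomogeneity `3` with finitely many non-principal orbits and exactly two
singular orbits, whose isotropy groups are not conjugate, such that `M` admits almost nonnegative
sectional curvature; in fact `M` has a `G`-invariant Riemannian metric with sectional curvature at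
least `1` and diameter at most `1`. -/
theorem result :
    ∃ (EG HG G M : Type) (_ : NormedAddCommGroup EG) (_ : NormedSpace ℝ EG)
      (_ : TopologicalSpace HG) (IG : ModelWithCorners ℝ EG HG) (_ : Group G)
      (_ : TopologicalSpace G) (_ : ChartedSpace HG G) (_ : TopologicalSpace M)
      (_ : ChartedSpace (En 7) M) (_ : MulAction G M),
      TwoDifferentSingular IG 7 G M 3 ∧ AlmostNonnegative 7 M ∧
        ∃ g : RMet 7 M, Invariant G g ∧ SecGE g 1 ∧ DiamLE g 1 := by
  have hc : (0 : ℝ) < 1 / 16 := by norm_num
  have hd : DiamLE (smet W 7 (1 / 16) hc) 1 := by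
    refine diam_smet (by norm_num) _ hc _ ?_
    have h1 : Real.sqrt (1 / 16) = 1 / 4 := by
      rw [show (1 / 16 : ℝ) = (1 / 4) ^ 2 by norm_num]
      exact Real.sqrt_sq (by norm_num)
    rw [h1]
    linarith [Real.pi_le_four]
  refine ⟨EuclideanSpace ℝ (Fin 1) × EuclideanSpace ℝ (Fin 3),
    ModelProd (EuclideanSpace ℝ (Fin 1)) (EuclideanSpace ℝ (Fin 3)), GG, M7, inferInstance,
    inferInstance, inferInstance, I4, inferInstance, inferInstance, inferInstance, inferInstance,
    inferInstance, action2, two_different, fun ε hε => ⟨smet W 7 (1 / 16) hc, ?_, hd⟩,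
    smet W 7 (1 / 16) hc, invariant2 _ hc, ?_, hd⟩
  · exact secGE_smet _ hc _ (by nlinarith)
  · exact secGE_smet _ hc _ (by norm_num)

end Pool.Agent.Results.MP_9877a5_gt.SevenSphere
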